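import Pool.Agent.Erdos456.Mertens

/-!
# Integers composed of few primes

If `Q` is a set of at most `H ^ c` primes, `c` small, then only a small proportion of the integers up
to `H` have all their prime factors in `Q`.
-/

set_option autoImplicit false

namespace Pool.Agent.K9h10.RM

open Finset Filter Topology

/-- the integers in `[1, H]` with all prime factors in `Q` -/
noncomputable def Sm (Q : Finset ℕ) (H : ℕ) : Finset ℕ := (Icc 1 H).filter fun q => q.primeFactors ⊆ Q

lemma sum_log_prime : ∃ C : ℝ, 0 ≤ C ∧ ∀ (K : ℕ) (Q : Finset ℕ), 3 ≤ K → Q.card ≤ K →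
    (∀ p ∈ Q, p.Prime) → ∑ p ∈ Q, Real.log p / p ≤ 2 * Real.log K + C := by
  obtain ⟨C, hC⟩ := Pool.Agent.Erdos456.Mert.mertens_log
  refine ⟨|C|, abs_nonneg _, fun K Q hK hQ hp => ?_⟩
  have hKR : (3 : ℝ) ≤ K := by exact_mod_cast hK
  have hK0 : (0 : ℝ) < K := by linarith
  rw [← sum_filter_add_sum_filter_not Q (fun p => p ≤ K)]
  have h1 : ∑ p ∈ Q.filter (fun p => p ≤ K), Real.log p / p ≤ Real.log K + |C| := by
    have h2 : ∑ p ∈ Q.filter (fun p => p ≤ K), Real.log p / p ≤
        ∑ p ∈ (Icc 1 K).filter Nat.Prime, Real.log p / p := by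
      apply sum_le_sum_of_subset_of_nonneg
      · intro p hp'
        rw [mem_filter] at hp'
        rw [mem_filter, mem_Icc]
        exact ⟨⟨(hp p hp'.1).one_le, hp'.2⟩, hp p hp'.1⟩
      · intro p _ _
        exact div_nonneg (Real.log_natCast_nonneg p) (Nat.cast_nonneg p)
    have h3 := (abs_le.1 (hC K (by omega))).2
    have h4 := le_abs_self C
    linarith
  have h2 : ∑ p ∈ Q.filter (fun p => ¬ p ≤ K), Real.log p / p ≤ Real.log K := by
    have h3 : ∀ p ∈ Q.filter (fun p => ¬ p ≤ K), Real.log p / p ≤ Real.log K / K := by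
      intro p hp'
      rw [mem_filter] at hp'
      have h4 : (K : ℝ) ≤ p := by exact_mod_cast (not_le.1 hp'.2).le
      have he : Real.exp 1 ≤ 3 := by
        have := Real.exp_one_lt_d9
        linarith
      exact Real.log_div_self_antitoneOn (show Real.exp 1 ≤ (K : ℝ) by linarith)
        (show Real.exp 1 ≤ (p : ℝ) by linarith) h4
    refine (sum_le_sum h3).trans ?_
    rw [sum_const, nsmul_eq_mul]
    have h5 : (((Q.filter (fun p => ¬ p ≤ K)).card : ℕ) : ℝ) ≤ K :=
      Nat.cast_le.2 ((card_filter_le _ _).trans hQ)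
    have h6 : 0 ≤ Real.log K / K := div_nonneg (Real.log_natCast_nonneg K) hK0.le
    calc _ ≤ (K : ℝ) * (Real.log K / K) := mul_le_mul_of_nonneg_right h5 h6
      _ = Real.log K := by field_simp
  linarith

lemma log_eq (q : ℕ) (Q : Finset ℕ) (hq : q.primeFactors ⊆ Q) :
    Real.log q = ∑ p ∈ Q, (q.factorization p : ℝ) * Real.log p := by
  rw [Real.log_nat_eq_sum_factorization, Finsupp.sum, Nat.support_factorization]
  refine sum_subset hq fun p _ hp => ?_
  rw [← Nat.support_factorization, Finsupp.notMem_support_iff] at hp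
  rw [hp]
  simp

lemma sum_factorization (H : ℕ) (p : ℕ) (hp : p.Prime) :
    ∑ q ∈ Icc 1 H, q.factorization p ≤ H / (p - 1) := by
  have h1 : ∑ q ∈ Icc 1 H, q.factorization p = H.factorial.factorization p := by
    induction H with
    | zero => simp
    | succ H ih =>
      rw [← Finset.insert_Icc_right_eq_Icc_add_one (by omega : 1 ≤ H + 1), sum_insert (by simp), ih,
        Nat.factorial_succ, Nat.factorization_mul (by omega) (Nat.factorial_ne_zero _)]
      rfl
  rw [h1]
  have : Fact p.Prime := ⟨hp⟩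
  have h2 := sub_one_mul_padicValNat_factorial (p := p) H
  rw [Nat.factorization_def _ hp, Nat.le_div_iff_mul_le (by have := hp.two_le; omega), mul_comm, h2]
  omega

lemma sum_log_le (H : ℕ) (Q : Finset ℕ) (hp : ∀ p ∈ Q, p.Prime) :
    ∑ q ∈ Sm Q H, Real.log q ≤ 2 * H * ∑ p ∈ Q, Real.log p / p := by
  have h1 : ∑ q ∈ Sm Q H, Real.log q =
      ∑ p ∈ Q, (∑ q ∈ Sm Q H, (q.factorization p : ℝ)) * Real.log p := by
    rw [sum_congr rfl fun q hq => log_eq q Q (by
      unfold Sm at hq
      exact (mem_filter.1 hq).2), sum_comm]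
    exact sum_congr rfl fun p _ => by rw [sum_mul]
  rw [h1, mul_sum]
  refine sum_le_sum fun p hpp => ?_
  have hpr := hp p hpp
  have h2 : ∑ q ∈ Sm Q H, (q.factorization p : ℝ) ≤ H / ((p : ℝ) - 1) := by
    have h3 : ∑ q ∈ Sm Q H, q.factorization p ≤ ∑ q ∈ Icc 1 H, q.factorization p :=
      sum_le_sum_of_subset (filter_subset _ _)
    have h4 : ((∑ q ∈ Sm Q H, q.factorization p : ℕ) : ℝ) ≤ ((H / (p - 1) : ℕ) : ℝ) :=
      Nat.cast_le.2 (h3.trans (sum_factorization H p hpr))
    push_cast at h4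
    refine h4.trans (Nat.cast_div_le.trans (le_of_eq ?_))
    rw [Nat.cast_sub hpr.one_le, Nat.cast_one]
  have hp2 : (2 : ℝ) ≤ p := by exact_mod_cast hpr.two_le
  have h3 : (H : ℝ) / ((p : ℝ) - 1) ≤ 2 * H / p := by
    rw [div_le_div_iff₀ (by linarith) (by linarith)]
    have : (0 : ℝ) ≤ H := Nat.cast_nonneg _
    nlinarith
  calc (∑ q ∈ Sm Q H, (q.factorization p : ℝ)) * Real.log p ≤ 2 * H / p * Real.log p :=
        mul_le_mul_of_nonneg_right (h2.trans h3) (Real.log_natCast_nonneg p)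
    _ = 2 * H * (Real.log p / p) := by ring

/-- **few integers are composed of few primes** -/
theorem card_Sm (ε : ℝ) (hε : 0 < ε) : ∃ k : ℕ, ∃ H₀ : ℕ, ∀ (H K : ℕ) (Q : Finset ℕ), H₀ ≤ H →
    Q.card ≤ K → K ^ k ≤ H → (∀ p ∈ Q, p.Prime) → ((Sm Q H).card : ℝ) ≤ ε * H := by
  obtain ⟨C, hC, hsum⟩ := sum_log_prime
  obtain ⟨k, hk⟩ := exists_nat_gt (64 / ε)
  have hk0 : (0 : ℝ) < k := by
    have : 0 < 64 / ε := by positivity
    linarith
  have hlog : ∀ᶠ H : ℕ in atTop, 16 * (2 * Real.log 3 + C) / ε + 1 ≤ Real.log H :=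
    (Real.tendsto_log_atTop.comp tendsto_natCast_atTop_atTop).eventually_ge_atTop _
  have hsq : ∀ᶠ H : ℕ in atTop, 4 / ε ^ 2 ≤ (H : ℝ) :=
    tendsto_natCast_atTop_atTop.eventually_ge_atTop _
  obtain ⟨H0, hH0⟩ := eventually_atTop.1 (hlog.and hsq)
  refine ⟨k, max H0 1, fun H K Q hH hK hKk hp => ?_⟩
  obtain ⟨h1, h2⟩ := hH0 H ((le_max_left _ _).trans hH)
  have hH1 : 1 ≤ H := (le_max_right _ _).trans hH
  have hHR : (1 : ℝ) ≤ H := by exact_mod_cast hH1
  have hHp : (0 : ℝ) < H := by linarith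
  have h30 : 0 ≤ Real.log 3 := Real.log_nonneg (by norm_num)
  have hL : 0 < Real.log H := by
    have : 0 ≤ 16 * (2 * Real.log 3 + C) / ε := by positivity
    linarith
  -- the sum over the primes
  have hS : ∑ p ∈ Q, Real.log p / p ≤ ε / 8 * Real.log H := by
    have h3 := hsum (max K 3) Q (le_max_right _ _) (hK.trans (le_max_left _ _)) hp
    have h4 : Real.log ((max K 3 : ℕ) : ℝ) ≤ Real.log 3 + Real.log H / k := by
      rcases le_total K 3 with h | h
      · rw [max_eq_right h]
        have : 0 ≤ Real.log H / k := by positivity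
        push_cast
        linarith
      · rw [max_eq_left h]
        have hK0 : (0 : ℝ) < K := by
          have : (3 : ℝ) ≤ K := by exact_mod_cast h
          linarith
        have h5 : (k : ℝ) * Real.log K ≤ Real.log H := by
          rw [← Real.log_pow]
          exact Real.log_le_log (by positivity) (by exact_mod_cast hKk)
        have h6 : Real.log K ≤ Real.log H / k := by
          rw [le_div_iff₀ hk0]
          linarith
        linarith
    have h5 : Real.log H / k ≤ ε / 64 * Real.log H := by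
      rw [div_le_iff₀ hk0]
      have h6 : 1 ≤ ε / 64 * k := by
        have : 64 / ε ≤ k := hk.le
        rw [div_le_iff₀ hε] at this
        linarith
      nlinarith
    have h6 : 2 * Real.log 3 + C ≤ ε / 16 * Real.log H := by
      have : 16 * (2 * Real.log 3 + C) / ε ≤ Real.log H := by linarith
      rw [div_le_iff₀ hε] at this
      linarith
    have h7 : 0 ≤ ε * Real.log H := by positivity
    linarith
  -- the lower bound
  have hlow : (((Sm Q H).card : ℝ) - Real.sqrt H) * (Real.log H / 2) ≤ ∑ q ∈ Sm Q H, Real.log q := by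
    have h3 : ∑ q ∈ (Sm Q H).filter (fun q : ℕ => Real.sqrt H ≤ (q : ℝ)), Real.log q ≤
        ∑ q ∈ Sm Q H, Real.log q :=
      sum_le_sum_of_subset_of_nonneg (filter_subset _ _) fun q _ _ => Real.log_natCast_nonneg q
    have h4 : ∀ q ∈ (Sm Q H).filter (fun q : ℕ => Real.sqrt H ≤ (q : ℝ)), Real.log H / 2 ≤ Real.log q := by
      intro q hq
      rw [mem_filter] at hq
      rw [← Real.log_sqrt hHp.le]
      exact Real.log_le_log (Real.sqrt_pos.2 hHp) hq.2
    have h5 : (((Sm Q H).filter (fun q : ℕ => Real.sqrt H ≤ (q : ℝ))).card : ℝ) * (Real.log H / 2) ≤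
        ∑ q ∈ (Sm Q H).filter (fun q : ℕ => Real.sqrt H ≤ (q : ℝ)), Real.log q := by
      rw [← nsmul_eq_mul]
      exact card_nsmul_le_sum _ _ _ h4
    have h6 : ((Sm Q H).card : ℝ) - Real.sqrt H ≤
        (((Sm Q H).filter (fun q : ℕ => Real.sqrt H ≤ (q : ℝ))).card : ℝ) := by
      have h7 := card_filter_add_card_filter_not (s := Sm Q H) (fun q : ℕ => Real.sqrt H ≤ (q : ℝ))
      have h8 : (((Sm Q H).filter (fun q : ℕ => ¬ Real.sqrt H ≤ (q : ℝ))).card : ℝ) ≤ Real.sqrt H := by
        have h9 : (Sm Q H).filter (fun q : ℕ => ¬ Real.sqrt H ≤ (q : ℝ)) ⊆ Icc 1 ⌊Real.sqrt H⌋₊ := by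
          intro q hq
          rw [mem_filter] at hq
          rw [mem_Icc]
          refine ⟨?_, Nat.le_floor (not_le.1 hq.2).le⟩
          have := hq.1
          unfold Sm at this
          rw [mem_filter, mem_Icc] at this
          exact this.1.1
        have h10 := card_le_card h9
        rw [Nat.card_Icc, Nat.add_sub_cancel] at h10
        exact (Nat.cast_le.2 h10).trans (Nat.floor_le (Real.sqrt_nonneg _))
      have h7' : ((((Sm Q H).filter (fun q : ℕ => Real.sqrt H ≤ (q : ℝ))).card : ℕ) : ℝ) +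
          ((((Sm Q H).filter (fun q : ℕ => ¬ Real.sqrt H ≤ (q : ℝ))).card : ℕ) : ℝ) =
          (((Sm Q H).card : ℕ) : ℝ) := by exact_mod_cast h7
      linarith
    exact (mul_le_mul_of_nonneg_right h6 (by positivity)).trans (h5.trans h3)
  have hup := sum_log_le H Q hp
  have h3 : 2 * (H : ℝ) * ∑ p ∈ Q, Real.log p / p ≤ 2 * H * (ε / 8 * Real.log H) :=
    mul_le_mul_of_nonneg_left hS (by positivity)
  have h4 : (((Sm Q H).card : ℝ) - Real.sqrt H) ≤ ε / 2 * H := by
    have h5 : (((Sm Q H).card : ℝ) - Real.sqrt H) * (Real.log H / 2) ≤ ε / 2 * H * (Real.log H / 2) := by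
      refine hlow.trans (hup.trans (h3.trans (le_of_eq ?_)))
      ring
    exact le_of_mul_le_mul_right h5 (by positivity)
  have h5 : Real.sqrt H ≤ ε / 2 * H := by
    have h6 : 2 / ε ≤ Real.sqrt H := by
      apply Real.le_sqrt_of_sq_le
      rw [div_pow]
      norm_num
      exact h2
    have h7 : Real.sqrt H * Real.sqrt H = H := Real.mul_self_sqrt hHp.le
    rw [div_le_iff₀ hε] at h6
    nlinarith [Real.sqrt_nonneg (H : ℝ)]
  linarith

end Pool.Agent.K9h10.RM
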