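import Pool.Agent.K9h10.RM.Moment
import Pool.Agent.K9h10.RM.Smooth

/-!
# The exceptional denominators
-/

set_option autoImplicit false

namespace Pool.Agent.K9h10.RM

open Finset Filter Topology
open Pool.Agent.R485.Mult

/-- the number of the first digits which are left out -/
def i0 (s N D : ℕ) : ℕ := (s + 2) * Nat.clog 2 N + Nat.clog 2 D

lemma pow_i0 (s N D b : ℕ) (hb : 2 ≤ b) : (N : ℝ) ^ (s + 2) * D ≤ (b : ℝ) ^ i0 s N D := by
  have h1 : N ≤ 2 ^ Nat.clog 2 N := Nat.le_pow_clog (by norm_num) N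
  have h1' : D ≤ 2 ^ Nat.clog 2 D := Nat.le_pow_clog (by norm_num) D
  have h2 : N ^ (s + 2) * D ≤ b ^ i0 s N D := by
    calc N ^ (s + 2) * D ≤ (2 ^ Nat.clog 2 N) ^ (s + 2) * 2 ^ Nat.clog 2 D :=
          Nat.mul_le_mul (Nat.pow_le_pow_left h1 _) h1'
      _ = 2 ^ i0 s N D := by rw [← pow_mul, ← pow_add]; unfold i0; congr 1; ring
      _ ≤ b ^ i0 s N D := Nat.pow_le_pow_left hb _
  exact_mod_cast h2

lemma i0_le (s : ℕ) : ∀ᶠ N : ℕ in atTop, ∀ D : ℕ, D ≤ 2 ^ Nat.sqrt N →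
    (i0 s N D : ℝ) ≤ 2 * Real.sqrt N := by
  have h1 : (fun u : ℝ => ((s : ℝ) + 2) * (1 + 2 * Real.log u)) =o[atTop] (fun u : ℝ => u ^ (1 / 2 : ℝ)) := by
    apply Asymptotics.IsLittleO.const_mul_left
    apply Asymptotics.IsLittleO.add
    · exact Asymptotics.isLittleO_const_left.2 (Or.inr (by
        refine tendsto_norm_atTop_atTop.comp (tendsto_rpow_atTop (by positivity))))
    · exact (isLittleO_log_rpow_atTop (by positivity)).const_mul_left 2
  have h2 := (h1.comp_tendsto tendsto_natCast_atTop_atTop).bound (c := 1) one_pos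
  filter_upwards [h2, eventually_ge_atTop 2] with N hN hN2
  simp only [Function.comp, Real.norm_eq_abs, one_mul] at hN
  have hNR : (2 : ℝ) ≤ N := by exact_mod_cast hN2
  rw [abs_of_nonneg (a := (N : ℝ) ^ (1 / 2 : ℝ)) (by positivity), ← Real.sqrt_eq_rpow] at hN
  intro D hD
  have hD1 : (Nat.clog 2 D : ℝ) ≤ Real.sqrt N := by
    have h1 : Nat.clog 2 D ≤ Nat.sqrt N := (Nat.clog_le_iff_le_pow (by norm_num)).2 hD
    have h2 : (Nat.sqrt N : ℝ) ≤ Real.sqrt N := Real.nat_sqrt_le_real_sqrt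
    exact (Nat.cast_le.2 h1).trans h2
  have hN' := (le_abs_self _).trans hN
  suffices h : ((s : ℝ) + 2) * Nat.clog 2 N ≤ (s + 2) * (1 + 2 * Real.log N) by
    unfold i0
    push_cast
    linarith
  apply mul_le_mul_of_nonneg_left _ (by positivity)
  have h3 : 2 ^ (Nat.clog 2 N).pred < N := Nat.pow_pred_clog_lt_self (by norm_num) (by omega)
  have h4 : (2 : ℝ) ^ (Nat.clog 2 N).pred < N := by exact_mod_cast h3
  have h5 : ((Nat.clog 2 N).pred : ℝ) * Real.log 2 ≤ Real.log N := by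
    rw [← Real.log_pow]
    exact Real.log_le_log (by positivity) h4.le
  have h6 : (Nat.clog 2 N : ℝ) ≤ ((Nat.clog 2 N).pred : ℝ) + 1 := by
    have : Nat.clog 2 N ≤ (Nat.clog 2 N).pred + 1 := by
      rw [Nat.pred_eq_sub_one]
      omega
    exact_mod_cast this
  have h7 := Real.log_two_gt_d9
  have h8 : (0 : ℝ) ≤ ((Nat.clog 2 N).pred : ℝ) := Nat.cast_nonneg _
  nlinarith

/-- the integers near to the numbers `x b ^ i0 h K` -/
noncomputable def ZZ (B s N D : ℕ) (x : ℝ) : Finset ℤ :=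
  (((Icc 2 B) ×ˢ (Fintype.piFinset (fun _ : Fin (2 * s) => Icc 1 N)) ×ˢ (Icc 1 N) ×ˢ
    (Icc (-(2 * (N : ℤ) ^ s * D + 1)) (2 * (N : ℤ) ^ s * D + 1))).image
      (fun t => ⌊x * (t.1 : ℝ) ^ i0 s N D * (t.2.2.1 * (Kp t.1 s t.2.1 : ℝ))⌋ + t.2.2.2)).filter
        (fun Z => Z ≠ 0)

lemma card_ZZ (B s N D : ℕ) (x : ℝ) (hN : 1 ≤ N) (hD : 1 ≤ D) (hNB : 7 * B ≤ N) :
    (ZZ B s N D x).card ≤ D * N ^ (3 * s + 2) := by
  unfold ZZ
  refine (card_filter_le _ _).trans (card_image_le.trans ?_)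
  rw [card_product, card_product, card_product, Fintype.card_piFinset, Int.card_Icc]
  simp only [Nat.card_Icc, Nat.add_sub_cancel, prod_const, card_univ, Fintype.card_fin]
  have h1 : (2 * (N : ℤ) ^ s * D + 1 + 1 - -(2 * (N : ℤ) ^ s * D + 1)).toNat = 4 * (N ^ s * D) + 3 := by
    have : 2 * (N : ℤ) ^ s * D + 1 + 1 - -(2 * (N : ℤ) ^ s * D + 1) = ((4 * (N ^ s * D) + 3 : ℕ) : ℤ) := by
      push_cast; ring
    rw [this, Int.toNat_natCast]
  rw [h1]
  have h2 : 1 ≤ N ^ s * D := Nat.mul_pos (Nat.one_le_pow _ _ hN) hD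
  calc (B + 1 - 2) * (N ^ (2 * s) * (N * (4 * (N ^ s * D) + 3)))
      ≤ B * (N ^ (2 * s) * (N * (7 * (N ^ s * D)))) := by
        apply Nat.mul_le_mul (by omega)
        apply Nat.mul_le_mul_left
        apply Nat.mul_le_mul_left
        omega
    _ = (7 * B) * (N ^ (2 * s) * (N * (N ^ s * D))) := by ring
    _ ≤ N * (N ^ (2 * s) * (N * (N ^ s * D))) := Nat.mul_le_mul_right _ hNB
    _ = D * N ^ (3 * s + 2) := by ring

/-- the exceptional primes -/
noncomputable def QQ (B s N D : ℕ) (x : ℝ) : Finset ℕ :=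
  (ZZ B s N D x).biUnion fun Z => Z.natAbs.primeFactors

lemma prime_QQ (B s N D : ℕ) (x : ℝ) : ∀ p ∈ QQ B s N D x, p.Prime := by
  intro p hp
  unfold QQ at hp
  rw [mem_biUnion] at hp
  obtain ⟨Z, -, hZ⟩ := hp
  exact Nat.prime_of_mem_primeFactors hZ

lemma card_primeFactors_le (n W : ℕ) (hn : n ≠ 0) (hW : n < 2 ^ W) : n.primeFactors.card ≤ W := by
  have h1 : 2 ^ n.primeFactors.card ≤ ∏ p ∈ n.primeFactors, p := by
    apply Finset.pow_card_le_prod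
    intro p hp
    exact (Nat.prime_of_mem_primeFactors hp).two_le
  have h2 : ∏ p ∈ n.primeFactors, p ≤ n := Nat.le_of_dvd (Nat.pos_of_ne_zero hn) (Nat.prod_primeFactors_dvd n)
  exact ((Nat.pow_lt_pow_iff_right (by norm_num)).1 (lt_of_le_of_lt (h1.trans h2) hW)).le

lemma abs_Kp (b s N : ℕ) (hb : 1 ≤ b) (p : Fin (2 * s) → ℕ) (hp : ∀ j, 1 ≤ p j ∧ p j ≤ N) :
    |(Kp b s p : ℝ)| ≤ 2 * s * (b : ℝ) ^ N := by
  have h1 : |Kp b s p| ≤ 2 * s * (b : ℤ) ^ N := by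
    unfold Kp
    refine (abs_sum_le_sum_abs _ _).trans ?_
    calc ∑ j : Fin (2 * s), |sg j * (b : ℤ) ^ (p j)| ≤ ∑ _j : Fin (2 * s), (b : ℤ) ^ N := by
          refine sum_le_sum fun j _ => ?_
          rw [abs_mul, abs_sg, one_mul, abs_of_nonneg (by positivity)]
          exact pow_le_pow_right₀ (by exact_mod_cast hb) (hp j).2
      _ = 2 * s * (b : ℤ) ^ N := by
          rw [sum_const, card_univ, Fintype.card_fin, nsmul_eq_mul]
          push_cast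
          ring
  have h2 : ((|Kp b s p| : ℤ) : ℝ) ≤ ((2 * s * (b : ℤ) ^ N : ℤ) : ℝ) := Int.cast_le.2 h1
  push_cast at h2
  exact h2

/-- **the exceptional primes are few** -/
theorem card_QQ (B s : ℕ) (x : ℝ) : ∃ N₀ : ℕ, ∀ N D : ℕ, N₀ ≤ N → 1 ≤ D → D ≤ 2 ^ Nat.sqrt N →
    (QQ B s N D x).card ≤ D * N ^ (3 * s + 4) := by
  have hi : ∀ᶠ N : ℕ in atTop, ∀ D : ℕ, D ≤ 2 ^ Nat.sqrt N → i0 s N D ≤ N := by
    filter_upwards [i0_le s, eventually_ge_atTop 4] with N hN hN1 D hD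
    have h1 : (4 : ℝ) ≤ N := by exact_mod_cast hN1
    have h2 : 2 * Real.sqrt N ≤ N := by
      have h3 : (2 : ℝ) ≤ Real.sqrt N := Real.le_sqrt_of_sq_le (by linarith)
      have h4 : Real.sqrt N * Real.sqrt N = N := Real.mul_self_sqrt (by linarith)
      nlinarith
    exact_mod_cast (hN D hD).trans h2
  have hx : ∀ᶠ N : ℕ in atTop, |x| * (N * (2 * s)) + 2 + 2 * (N : ℝ) ^ s + 1 ≤ (2 : ℝ) ^ N := by
    have h0 : ∀ k : ℕ, ∀ C : ℝ, 0 ≤ C → ∀ᶠ N : ℕ in atTop, C * (N : ℝ) ^ k ≤ (2 : ℝ) ^ N / 4 := by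
      intro k C hC
      have h1 := tendsto_pow_const_div_const_pow_of_one_lt k (by norm_num : (1 : ℝ) < 2)
      filter_upwards [h1.eventually (gt_mem_nhds (by positivity : (0 : ℝ) < 1 / (4 * (C + 1))))] with N hN
      rw [div_lt_div_iff₀ (by positivity) (by positivity)] at hN
      have h2 : (0 : ℝ) ≤ (N : ℝ) ^ k := by positivity
      nlinarith
    filter_upwards [h0 1 (|x| * (2 * s)) (by positivity), h0 0 3 (by norm_num), h0 s 2 (by norm_num)]
      with N hN1 hN2 hN3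
    rw [pow_one] at hN1
    rw [pow_zero] at hN2
    have h2 : (0 : ℝ) ≤ (2 : ℝ) ^ N := by positivity
    linarith
  obtain ⟨N1, hN1⟩ := eventually_atTop.1 (hi.and hx)
  refine ⟨max N1 (7 * B + 4), fun N D hN hD1 hD => ?_⟩
  obtain ⟨h1', h2⟩ := hN1 N ((le_max_left _ _).trans hN)
  have h1 := h1' D hD
  have hNB : 7 * B + 4 ≤ N := (le_max_right _ _).trans hN
  have hDN : (D : ℝ) ≤ (2 : ℝ) ^ N := by
    have : D ≤ 2 ^ N := hD.trans (Nat.pow_le_pow_right (by norm_num) (Nat.sqrt_le_self N))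
    exact_mod_cast this
  have hW : ∀ Z ∈ ZZ B s N D x, Z.natAbs.primeFactors.card ≤ N ^ 2 := by
    intro Z hZ
    unfold ZZ at hZ
    rw [mem_filter, mem_image] at hZ
    obtain ⟨⟨⟨b, p, h, t⟩, ht, rfl⟩, hZ0⟩ := hZ
    rw [mem_product, mem_product, mem_product, mem_Icc, Fintype.mem_piFinset, mem_Icc, mem_Icc] at ht
    simp only at ht hZ0 ⊢
    obtain ⟨⟨hb2, hbB⟩, hp, ⟨hh1, hhN⟩, ht1, ht2⟩ := ht
    have hp' : ∀ j, 1 ≤ p j ∧ p j ≤ N := fun j => mem_Icc.1 (hp j)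
    refine (card_primeFactors_le _ ((2 * B + 2) * N) (Int.natAbs_ne_zero.2 hZ0) ?_).trans ?_
    swap
    · rw [sq]
      exact Nat.mul_le_mul_right _ (by omega)
    have hbR : (1 : ℝ) ≤ b := by exact_mod_cast (by omega : 1 ≤ b)
    have hbB' : (b : ℝ) ≤ (2 : ℝ) ^ B := by
      have : b ≤ 2 ^ B := hbB.trans Nat.lt_two_pow_self.le
      exact_mod_cast this
    have h3 : |x * (b : ℝ) ^ i0 s N D * (h * (Kp b s p : ℝ))| ≤
        |x| * (N * (2 * s)) * (2 : ℝ) ^ (2 * B * N) := by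
      rw [abs_mul, abs_mul, abs_mul, abs_of_nonneg (by positivity : (0 : ℝ) ≤ (b : ℝ) ^ i0 s N D),
        abs_of_nonneg (Nat.cast_nonneg h : (0 : ℝ) ≤ h)]
      have h4 := abs_Kp b s N (by omega) p hp'
      have h5 : (h : ℝ) ≤ N := by exact_mod_cast hhN
      have h6 : (b : ℝ) ^ i0 s N D * (b : ℝ) ^ N ≤ (2 : ℝ) ^ (2 * B * N) := by
        rw [← pow_add]
        calc (b : ℝ) ^ (i0 s N D + N) ≤ (b : ℝ) ^ (2 * N) := pow_le_pow_right₀ hbR (by omega)
          _ ≤ ((2 : ℝ) ^ B) ^ (2 * N) := pow_le_pow_left₀ (by linarith) hbB' _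
          _ = (2 : ℝ) ^ (2 * B * N) := by rw [← pow_mul]; congr 1; ring
      calc |x| * (b : ℝ) ^ i0 s N D * (h * |(Kp b s p : ℝ)|)
          ≤ |x| * (b : ℝ) ^ i0 s N D * (N * (2 * s * (b : ℝ) ^ N)) := by
            gcongr
        _ = |x| * (N * (2 * s)) * ((b : ℝ) ^ i0 s N D * (b : ℝ) ^ N) := by ring
        _ ≤ |x| * (N * (2 * s)) * (2 : ℝ) ^ (2 * B * N) := by gcongr
    set w := x * (b : ℝ) ^ i0 s N D * (h * (Kp b s p : ℝ)) with hw
    have h7 : ((⌊w⌋ + t).natAbs : ℝ) ≤ |w| + 1 + (2 * (N : ℝ) ^ s * D + 1) := by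
      rw [Nat.cast_natAbs, Int.cast_abs]
      push_cast
      have h8 : |(⌊w⌋ : ℝ)| ≤ |w| + 1 := by
        have h9 := Int.floor_le w
        have h10 := Int.lt_floor_add_one w
        rw [abs_le]
        constructor
        · have := neg_abs_le w
          linarith
        · have := le_abs_self w
          linarith
      have h9 : |(t : ℝ)| ≤ 2 * (N : ℝ) ^ s * D + 1 := by
        rw [abs_le]
        constructor
        · have : ((-(2 * (N : ℤ) ^ s * D + 1) : ℤ) : ℝ) ≤ t := Int.cast_le.2 ht1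
          push_cast at this
          linarith
        · have : (t : ℝ) ≤ ((2 * (N : ℤ) ^ s * D + 1 : ℤ) : ℝ) := Int.cast_le.2 ht2
          push_cast at this
          linarith
      exact (abs_add_le _ _).trans (add_le_add h8 h9)
    have h8 : ((⌊w⌋ + t).natAbs : ℝ) < (2 : ℝ) ^ ((2 * B + 2) * N) := by
      have hpos : (1 : ℝ) ≤ (2 : ℝ) ^ (2 * B * N) := one_le_pow₀ (by norm_num)
      have hpos2 : (1 : ℝ) ≤ (2 : ℝ) ^ N := one_le_pow₀ (by norm_num)
      have h9 : |w| + 1 + (2 * (N : ℝ) ^ s * D + 1) < (2 : ℝ) ^ (2 * B * N) * (2 : ℝ) ^ N * (2 : ℝ) ^ N := by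
        have h10 : (0 : ℝ) ≤ (N : ℝ) ^ s := by positivity
        have h11 : 2 + 2 * (N : ℝ) ^ s * D ≤ (2 + 2 * (N : ℝ) ^ s) * (2 : ℝ) ^ N := by nlinarith
        calc |w| + 1 + (2 * (N : ℝ) ^ s * D + 1)
            ≤ |x| * (N * (2 * s)) * (2 : ℝ) ^ (2 * B * N) + (2 + 2 * (N : ℝ) ^ s) * (2 : ℝ) ^ N := by
              linarith
          _ ≤ |x| * (N * (2 * s)) * (2 : ℝ) ^ (2 * B * N) * (2 : ℝ) ^ N +
              (2 + 2 * (N : ℝ) ^ s) * ((2 : ℝ) ^ (2 * B * N) * (2 : ℝ) ^ N) := by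
              apply add_le_add
              · exact le_mul_of_one_le_right (by positivity) hpos2
              · apply mul_le_mul_of_nonneg_left _ (by positivity)
                exact le_mul_of_one_le_left (by positivity) hpos
          _ = (|x| * (N * (2 * s)) + 2 + 2 * (N : ℝ) ^ s) * ((2 : ℝ) ^ (2 * B * N) * (2 : ℝ) ^ N) := by
              ring
          _ < (2 : ℝ) ^ N * ((2 : ℝ) ^ (2 * B * N) * (2 : ℝ) ^ N) := by
              apply mul_lt_mul_of_pos_right _ (by positivity)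
              linarith
          _ = (2 : ℝ) ^ (2 * B * N) * (2 : ℝ) ^ N * (2 : ℝ) ^ N := by ring
      refine lt_of_le_of_lt h7 (h9.trans_le (le_of_eq ?_))
      rw [← pow_add, ← pow_add]
      congr 1
      ring
    exact_mod_cast h8
  unfold QQ
  refine card_biUnion_le.trans ((sum_le_sum hW).trans ?_)
  rw [sum_const, smul_eq_mul]
  calc (ZZ B s N D x).card * N ^ 2 ≤ D * N ^ (3 * s + 2) * N ^ 2 :=
        Nat.mul_le_mul_right _ (card_ZZ B s N D x (by omega) hD1 (by omega))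
    _ = D * N ^ (3 * s + 4) := by rw [mul_assoc, ← pow_add]

/-- **good denominators** -/
theorem far_of (B s N D M : ℕ) (x : ℝ) (hN : 1 ≤ N) (hD : 1 ≤ D) (hM : 1 ≤ M) (hx : 2 < N ^ 2 * |x|)
    (b : ℕ) (hb : 2 ≤ b) (hbB : b ≤ B) (q : ℕ) (hq : 1 ≤ q) (hqM : q ≤ D * M)
    (hQ : ¬ q.primeFactors ⊆ QQ B s N D x) :
    Far b s N (2 * (N : ℝ) ^ s / M) (x * (b : ℝ) ^ i0 s N D / q) := by
  intro p hp h hh1 hhN hK P
  by_contra hcon
  rw [not_lt] at hcon
  apply hQ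
  have hq0 : (0 : ℝ) < q := by exact_mod_cast hq
  have hM0 : (0 : ℝ) < M := by exact_mod_cast hM
  have hN0 : (0 : ℝ) < N := by exact_mod_cast hN
  have hD0 : (0 : ℝ) < D := by exact_mod_cast hD
  have hqM' : (q : ℝ) ≤ D * M := by exact_mod_cast hqM
  set w := x * (b : ℝ) ^ i0 s N D * (h * (Kp b s p : ℝ)) with hw
  have h1 : |w - ((q * P : ℤ) : ℝ)| ≤ 2 * (N : ℝ) ^ s * D := by
    have h2 : w - ((q * P : ℤ) : ℝ) = q * (x * (b : ℝ) ^ i0 s N D / q * (h * (Kp b s p : ℝ)) - P) := by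
      rw [hw]
      push_cast
      field_simp
    rw [h2, abs_mul, abs_of_pos hq0]
    calc (q : ℝ) * |x * (b : ℝ) ^ i0 s N D / q * (h * (Kp b s p : ℝ)) - P| ≤
          (D * M) * (2 * (N : ℝ) ^ s / M) := by
          apply mul_le_mul hqM' hcon (abs_nonneg _) (by positivity)
      _ = 2 * (N : ℝ) ^ s * D := by field_simp
  have h2 : 2 * (N : ℝ) ^ s * D < |w| := by
    have h3 : (1 : ℝ) ≤ |(Kp b s p : ℝ)| := by
      have : 1 ≤ |Kp b s p| := Int.one_le_abs hK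
      have h4 : ((1 : ℤ) : ℝ) ≤ ((|Kp b s p| : ℤ) : ℝ) := Int.cast_le.2 this
      push_cast at h4
      exact h4
    have h4 : (1 : ℝ) ≤ h := by exact_mod_cast hh1
    have h5 := pow_i0 s N D b hb
    rw [hw, abs_mul, abs_mul, abs_mul, abs_of_nonneg (by positivity : (0 : ℝ) ≤ (b : ℝ) ^ i0 s N D),
        abs_of_nonneg (Nat.cast_nonneg h : (0 : ℝ) ≤ h)]
    calc 2 * (N : ℝ) ^ s * D = ((N : ℝ) ^ s * D) * 2 := by ring
      _ < ((N : ℝ) ^ s * D) * (N ^ 2 * |x|) := mul_lt_mul_of_pos_left hx (by positivity)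
      _ = |x| * ((N : ℝ) ^ (s + 2) * D) * (1 * 1) := by ring
      _ ≤ |x| * (b : ℝ) ^ i0 s N D * (h * |(Kp b s p : ℝ)|) := by gcongr
  have hZ0 : (q : ℤ) * P ≠ 0 := by
    intro h3
    rw [h3, Int.cast_zero, sub_zero] at h1
    linarith
  have hmem : (q : ℤ) * P ∈ ZZ B s N D x := by
    unfold ZZ
    rw [mem_filter, mem_image]
    refine ⟨⟨(b, p, h, q * P - ⌊w⌋), ?_, ?_⟩, hZ0⟩
    · rw [mem_product, mem_product, mem_product, mem_Icc, Fintype.mem_piFinset, mem_Icc, mem_Icc]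
      refine ⟨⟨hb, hbB⟩, fun j => mem_Icc.2 (hp j), ⟨hh1, hhN⟩, ?_, ?_⟩
      · have h3 := (abs_le.1 h1).2
        have h4 := Int.floor_le w
        have h5 : ((-(2 * (N : ℤ) ^ s * D + 1) : ℤ) : ℝ) ≤ ((q * P - ⌊w⌋ : ℤ) : ℝ) := by
          push_cast
          push_cast at h3
          linarith
        exact Int.cast_le.1 h5
      · have h3 := (abs_le.1 h1).1
        have h4 := Int.lt_floor_add_one w
        have h5 : ((q * P - ⌊w⌋ : ℤ) : ℝ) ≤ ((2 * (N : ℤ) ^ s * D + 1 : ℤ) : ℝ) := by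
          push_cast
          push_cast at h3
          linarith
        exact Int.cast_le.1 h5
    · simp only
      rw [← hw]
      ring
  intro l hl
  unfold QQ
  rw [mem_biUnion]
  refine ⟨_, hmem, ?_⟩
  rw [Nat.mem_primeFactors] at hl ⊢
  refine ⟨hl.1, ?_, Int.natAbs_ne_zero.2 hZ0⟩
  rw [Int.natAbs_mul, Int.natAbs_natCast]
  exact hl.2.1.mul_right _

end Pool.Agent.K9h10.RM
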