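import Pool.Agent.K9h10.RM.Arith

/-!
# The digits of the rational multiples of a real number
-/

set_option autoImplicit false

namespace Pool.Agent.K9h10.RM

open Finset Filter Topology
open Pool.Agent.R485.Mult

/-- `z` is equidistributed in base `b` up to the `N`-th digit, with an error of at most `E` -/
def Dsc (b N : ℕ) (E z : ℝ) : Prop :=
  ∀ n : ℕ, n ≤ N → ∀ α β : ℝ, 0 ≤ α → α < β → β ≤ 1 →
    |(((Icc 1 n).filter (fun i : ℕ => α ≤ Int.fract (z * (b : ℝ) ^ i) ∧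
      Int.fract (z * (b : ℝ) ^ i) < β)).card : ℝ) - (β - α) * n| ≤ E

/-- the first digits may be left out -/
lemma Dsc_shift (b N I : ℕ) (z E : ℝ) (h : Dsc b N E (z * (b : ℝ) ^ I)) : Dsc b N (E + I) z := by
  classical
  intro n hn α β h0 h1 h2
  have hE : 0 ≤ E := by
    have := h 0 (Nat.zero_le _) α β h0 h1 h2
    exact (abs_nonneg _).trans this
  set P : ℕ → Prop := fun i => α ≤ Int.fract (z * (b : ℝ) ^ i) ∧ Int.fract (z * (b : ℝ) ^ i) < β with hP
  rcases le_total n I with hnI | hIn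
  · have h3 : (((Icc 1 n).filter P).card : ℝ) ≤ n := by
      have := card_filter_le (Icc 1 n) P
      rw [Nat.card_Icc, Nat.add_sub_cancel] at this
      exact_mod_cast this
    have h4 : (0 : ℝ) ≤ (((Icc 1 n).filter P).card : ℝ) := Nat.cast_nonneg _
    have h5 : (n : ℝ) ≤ I := by exact_mod_cast hnI
    have h6 : (0 : ℝ) ≤ n := Nat.cast_nonneg _
    rw [abs_le]
    constructor <;> nlinarith
  · have h3 := h (n - I) (by omega) α β h0 h1 h2
    have e1 : ((Icc 1 n).filter P).card = ((Icc 1 I).filter P).card + ((Icc 1 (n - I)).filter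
        (fun i : ℕ => α ≤ Int.fract (z * (b : ℝ) ^ I * (b : ℝ) ^ i) ∧
          Int.fract (z * (b : ℝ) ^ I * (b : ℝ) ^ i) < β)).card := by
      have e2 : (Icc 1 n).filter P = (Icc 1 I).filter P ∪ (Icc (I + 1) n).filter P := by
        rw [← filter_union]
        congr 1
        ext i
        simp only [mem_union, mem_Icc]
        omega
      rw [e2, card_union_of_disjoint]
      · congr 1
        symm
        refine card_bij (fun i _ => i + I) ?_ ?_ ?_
        · intro i hi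
          rw [mem_filter, mem_Icc] at hi
          rw [mem_filter, mem_Icc]
          refine ⟨by omega, ?_⟩
          have e3 : z * (b : ℝ) ^ (i + I) = z * (b : ℝ) ^ I * (b : ℝ) ^ i := by
            rw [pow_add]; ring
          rw [hP]
          simp only
          rw [e3]
          exact hi.2
        · intro i _ j _ hij
          omega
        · intro i hi
          rw [mem_filter, mem_Icc] at hi
          refine ⟨i - I, ?_, by omega⟩
          rw [mem_filter, mem_Icc]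
          refine ⟨by omega, ?_⟩
          have e3 : z * (b : ℝ) ^ i = z * (b : ℝ) ^ I * (b : ℝ) ^ (i - I) := by
            rw [mul_assoc, ← pow_add]
            congr 2
            omega
          rw [← e3]
          exact hi.2
      · rw [disjoint_left]
        intro i hi hi'
        rw [mem_filter, mem_Icc] at hi hi'
        omega
    rw [e1]
    have h4 : (((Icc 1 I).filter P).card : ℝ) ≤ I := by
      have := card_filter_le (Icc 1 I) P
      rw [Nat.card_Icc, Nat.add_sub_cancel] at this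
      exact_mod_cast this
    have h5 : (0 : ℝ) ≤ (((Icc 1 I).filter P).card : ℝ) := Nat.cast_nonneg _
    have h6 : (0 : ℝ) ≤ I := Nat.cast_nonneg _
    rw [Nat.cast_sub hIn] at h3
    rw [abs_le] at h3 ⊢
    push_cast
    constructor <;> nlinarith [h3.1, h3.2]

/-- **the digits of the rational multiples** -/
theorem main (B A : ℕ) (δ : ℝ) (hδ : 0 < δ) : ∃ r : ℕ, ∀ ε : ℝ, 0 < ε → ∃ k : ℕ, ∀ x : ℝ, x ≠ 0 →
    ∃ N₀ : ℕ, ∀ N D : ℕ, N₀ ≤ N → 1 ≤ D → D ≤ 2 ^ Nat.sqrt N → ∃ Q : Finset ℕ,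
      (∀ p ∈ Q, p.Prime) ∧ Q.card ≤ D * N ^ r ∧
      (∀ H : ℕ, (D * N ^ r) ^ k ≤ H → ((Sm Q H).card : ℝ) ≤ ε * H) ∧
      ∀ q : ℕ, 1 ≤ q → ¬ q.primeFactors ⊆ Q → ∀ (y : ℝ) (J : ℤ) (M : ℕ), q ≤ D * M →
        ((({m : ℕ | m < M ∧ ¬ ∀ b : ℕ, 2 ≤ b → b ≤ B →
          Dsc b N ((N : ℝ) ^ (1 / 2 + δ)) (y + (J + m) / q * x)}).ncard : ℕ) : ℝ) * N ^ A ≤ M := by
  classical
  obtain ⟨s, hs1, N1, hN1, hdisc⟩ := disc (δ / 2) (by positivity) (A + 1)
  refine ⟨3 * s + 4, fun ε hε => ?_⟩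
  obtain ⟨k, H0, hk⟩ := card_Sm ε hε
  refine ⟨k + 1, fun x hx => ?_⟩
  obtain ⟨N2, hN2⟩ := card_QQ B s x
  have hx0 : 0 < |x| := abs_pos.2 hx
  have hlarge : ∀ᶠ N : ℕ in atTop, (∀ D : ℕ, D ≤ 2 ^ Nat.sqrt N → (i0 s N D : ℝ) ≤ 2 * Real.sqrt N) ∧
      3 ≤ (N : ℝ) ^ (δ / 2) ∧ 2 < N * |x| := by
    refine (i0_le s).and (Filter.Eventually.and ?_ ?_)
    · exact ((tendsto_rpow_atTop (by positivity : 0 < δ / 2)).comp
        tendsto_natCast_atTop_atTop).eventually_ge_atTop 3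
    · exact (tendsto_natCast_atTop_atTop.atTop_mul_const hx0).eventually_gt_atTop 2
  obtain ⟨N3, hN3⟩ := eventually_atTop.1 hlarge
  refine ⟨max (max N1 N2) (max N3 (max (max 2 B) H0)), fun N D hN hD1 hD => ?_⟩
  have ha : N1 ≤ N := ((le_max_left _ _).trans (le_max_left _ _)).trans hN
  have hb : N2 ≤ N := ((le_max_right _ _).trans (le_max_left _ _)).trans hN
  have hc : N3 ≤ N := ((le_max_left _ _).trans (le_max_right _ _)).trans hN
  have hd : max (max 2 B) H0 ≤ N := ((le_max_right _ _).trans (le_max_right _ _)).trans hN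
  have hN2' : 2 ≤ N := ((le_max_left _ _).trans (le_max_left _ _)).trans hd
  have hNB : B ≤ N := ((le_max_right _ _).trans (le_max_left _ _)).trans hd
  have hNH : H0 ≤ N := (le_max_right _ _).trans hd
  obtain ⟨hi', hδN, hxN⟩ := hN3 N hc
  have hi := hi' D hD
  have hNR : (2 : ℝ) ≤ N := by exact_mod_cast hN2'
  have hN0 : (0 : ℝ) < N := by linarith
  have hxN2 : 2 < (N : ℝ) ^ 2 * |x| := by nlinarith
  refine ⟨QQ B s N D x, prime_QQ B s N D x, hN2 N D hb hD1 hD, fun H hH => ?_,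
    fun q hq hqQ y J M hM => ?_⟩
  · have h0 : 1 ≤ D * N ^ (3 * s + 4) := Nat.mul_pos hD1 (pow_pos (by omega) _)
    have h1 : N ≤ D * N ^ (3 * s + 4) :=
      (Nat.le_self_pow (by omega) N).trans (Nat.le_mul_of_pos_left _ hD1)
    have h2 : D * N ^ (3 * s + 4) ≤ (D * N ^ (3 * s + 4)) ^ (k + 1) := Nat.le_self_pow (by omega) _
    refine hk H (D * N ^ (3 * s + 4)) _ (hNH.trans (h1.trans (h2.trans hH))) (hN2 N D hb hD1 hD) ?_
      (prime_QQ B s N D x)
    exact le_trans (Nat.pow_le_pow_right h0 (by omega)) hH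
  have hM1 : 1 ≤ M := by
    rcases Nat.eq_zero_or_pos M with h | h
    · rw [h, mul_zero] at hM
      omega
    · exact h
  have hq0 : (0 : ℝ) < q := by exact_mod_cast hq
  have hM0 : (0 : ℝ) < M := by exact_mod_cast hM1
  set κ : ℝ := 2 * (N : ℝ) ^ s / M with hκ
  have hκ0 : 0 < κ := by positivity
  have hκM : (N : ℝ) ^ s * (2 / κ) ≤ M := by
    have : (N : ℝ) ^ s * (2 / κ) = M := by
      rw [hκ]
      field_simp
    rw [this]
  -- one base
  set W : ℕ → Set ℕ := fun b => {m : ℕ | m < M ∧ ¬ ∀ n : ℕ, n ≤ N → ∀ α β : ℝ, 0 ≤ α → α < β → β ≤ 1 →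
          |(((Icc 1 n).filter (fun i : ℕ => α ≤ Int.fract ((y * (b : ℝ) ^ i0 s N D + (J + m) *
            (x * (b : ℝ) ^ i0 s N D / q)) * (b : ℝ) ^ i) ∧
            Int.fract ((y * (b : ℝ) ^ i0 s N D + (J + m) *
            (x * (b : ℝ) ^ i0 s N D / q)) * (b : ℝ) ^ i) < β)).card : ℝ) - (β - α) * n| ≤
              (N : ℝ) ^ (1 / 2 + δ / 2)} with hW
  have hWc : ∀ b ∈ Icc 2 B, ((W b).ncard : ℝ) ≤ M / N ^ (A + 1) := by
    intro b hbb
    rw [mem_Icc] at hbb
    have h1 := hdisc b hbb.1 N ha κ (x * (b : ℝ) ^ i0 s N D / q) (y * (b : ℝ) ^ i0 s N D) J M hκ0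
      (far_of B s N D M x (by omega) hD1 hM1 hxN2 b hbb.1 hbb.2 q hq hM hqQ) hκM
    rw [le_div_iff₀ (by positivity)]
    exact h1
  have hWf : ∀ b, (W b).Finite := fun b => (Set.finite_Iio M).subset fun m hm => hm.1
  have hsub : {m : ℕ | m < M ∧ ¬ ∀ b : ℕ, 2 ≤ b → b ≤ B →
          Dsc b N ((N : ℝ) ^ (1 / 2 + δ)) (y + (J + m) / q * x)} ⊆ ⋃ b ∈ Icc 2 B, W b := by
    rintro m ⟨hm, hbad⟩
    by_contra hcon
    apply hbad
    intro b hb2 hbB
    have h1 : m ∉ W b := by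
      intro h2
      exact hcon (Set.mem_biUnion (mem_Icc.2 ⟨hb2, hbB⟩) h2)
    rw [hW] at h1
    simp only [Set.mem_ofPred_eq, not_and, not_not] at h1
    have h2 := h1 hm
    have h3 : Dsc b N ((N : ℝ) ^ (1 / 2 + δ / 2)) ((y + (J + m) / q * x) * (b : ℝ) ^ i0 s N D) := by
      intro n hn α β g0 g1 g2
      have h4 := h2 n hn α β g0 g1 g2
      have e1 : (y + ((J : ℝ) + m) / q * x) * (b : ℝ) ^ i0 s N D =
          y * (b : ℝ) ^ i0 s N D + (J + m) * (x * (b : ℝ) ^ i0 s N D / q) := by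
        field_simp
      rw [e1]
      exact h4
    have h4 := Dsc_shift b N (i0 s N D) _ _ h3
    intro n hn α β g0 g1 g2
    refine (h4 n hn α β g0 g1 g2).trans ?_
    have h5 : (N : ℝ) ^ (1 / 2 + δ) = (N : ℝ) ^ (1 / 2 + δ / 2) * (N : ℝ) ^ (δ / 2) := by
      rw [← Real.rpow_add hN0]
      congr 1
      ring
    have h6 : Real.sqrt N ≤ (N : ℝ) ^ (1 / 2 + δ / 2) := by
      rw [Real.sqrt_eq_rpow]
      exact Real.rpow_le_rpow_of_exponent_le (by linarith) (by linarith)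
    have h7 : (0 : ℝ) ≤ (N : ℝ) ^ (1 / 2 + δ / 2) := by positivity
    rw [h5]
    nlinarith
  have hcard : ((({m : ℕ | m < M ∧ ¬ ∀ b : ℕ, 2 ≤ b → b ≤ B →
          Dsc b N ((N : ℝ) ^ (1 / 2 + δ)) (y + (J + m) / q * x)}).ncard : ℕ) : ℝ) ≤
      B * (M / N ^ (A + 1)) := by
    have h1 : (⋃ b ∈ Icc 2 B, W b).ncard ≤ ∑ b ∈ Icc 2 B, (W b).ncard := by
      exact Finset.set_ncard_biUnion_le _ _
    have h2 : (⋃ b ∈ Icc 2 B, W b).Finite := by
      exact Set.Finite.biUnion (Icc 2 B).finite_toSet fun b _ => hWf b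
    have h3 := (Set.ncard_le_ncard hsub h2).trans h1
    refine (Nat.cast_le.2 h3).trans ?_
    push_cast
    refine (sum_le_sum hWc).trans ?_
    rw [sum_const, Nat.card_Icc, nsmul_eq_mul]
    apply mul_le_mul_of_nonneg_right _ (by positivity)
    exact_mod_cast (by omega : B + 1 - 2 ≤ B)
  have hBN : (B : ℝ) ≤ N := by exact_mod_cast hNB
  calc _ ≤ (B : ℝ) * (M / N ^ (A + 1)) * N ^ A := mul_le_mul_of_nonneg_right hcard (by positivity)
    _ = M * (B / N) := by
        rw [pow_succ]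
        field_simp
    _ ≤ M * 1 := by
        apply mul_le_mul_of_nonneg_left _ hM0.le
        rw [div_le_one hN0]
        exact hBN
    _ = M := mul_one _

end Pool.Agent.K9h10.RM
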