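import Pool.Agent.R485.Mult.Disc

/-!
# Moments of exponential sums over the multiples of a real number

The moments of `Pool.Agent.R485.Mult.Moment` for an arbitrary real number `θ` such that the numbers
`θ h K`, where `K` is a nonzero sum `± b ^ p_1 ± ⋯ ± b ^ p_(2s)`, are not too near to integers.
-/

set_option autoImplicit false

namespace Pool.Agent.K9h10.RM

open Finset Filter Topology
open Pool.Agent.H469R2.NK (e norm_e e_add e_zero conj_e)
open Pool.Agent.R485.Mult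

/-- the alternating sum `b ^ p_0 - b ^ p_1 + ⋯` -/
def Kp (b s : ℕ) (p : Fin (2 * s) → ℕ) : ℤ := ∑ j : Fin (2 * s), sg j * (b : ℤ) ^ (p j)

/-- the numbers `θ h K` are not near to integers -/
def Far (b s N : ℕ) (κ θ : ℝ) : Prop :=
  ∀ p : Fin (2 * s) → ℕ, (∀ j, 1 ≤ p j ∧ p j ≤ N) → ∀ h : ℕ, 1 ≤ h → h ≤ N →
    Kp b s p ≠ 0 → ∀ P : ℤ, κ < |θ * (h * (Kp b s p : ℝ)) - P|

/-- the moments of the exponential sums over the multiples -/
theorem moment (b : ℕ) (hb : 2 ≤ b) (s : ℕ) (hs : 1 ≤ s) (N : ℕ) (κ θ : ℝ) (hκ : 0 < κ)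
    (hfar : Far b s N κ θ) (y : ℝ) (J : ℤ) (M h n : ℕ) (hh1 : 1 ≤ h) (hh : h ≤ N) (hn : n ≤ N) :
    ∑ m ∈ range M, ‖∑ i ∈ Icc 1 n, e (h * (y + (J + m) * θ) * (b : ℝ) ^ i)‖ ^ (2 * s) ≤
      M * (s ^ (2 * s) * (2 * (2 * s) + 1) ^ (2 * s) * N ^ s : ℕ) +
        (N : ℝ) ^ (2 * s) * (2 / κ) := by
  classical
  set PP := Fintype.piFinset (fun _ : Fin (2 * s) => Icc 1 n) with hPP
  have h1 : ((∑ m ∈ range M, ‖∑ i ∈ Icc 1 n, e (h * (y + (J + m) * θ) * (b : ℝ) ^ i)‖ ^ (2 * s) : ℝ)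
      : ℂ) = ∑ p ∈ PP, ∑ m ∈ range M, e (h * y * Kp b s p + (J + m) * (θ * (h * Kp b s p))) := by
    rw [Complex.ofReal_sum, sum_comm]
    refine sum_congr rfl fun m _ => ?_
    rw [pow_expand]
    refine sum_congr rfl fun p _ => ?_
    congr 1
    unfold Kp
    ring
  have h2 : ∑ m ∈ range M, ‖∑ i ∈ Icc 1 n, e (h * (y + (J + m) * θ) * (b : ℝ) ^ i)‖ ^ (2 * s) =
      ‖∑ p ∈ PP, ∑ m ∈ range M, e (h * y * Kp b s p + (J + m) * (θ * (h * Kp b s p)))‖ := by
    rw [← h1, Complex.norm_real, Real.norm_eq_abs, abs_of_nonneg]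
    exact sum_nonneg fun m _ => by positivity
  rw [h2]
  have hκ2 : 0 < 2 / κ := by positivity
  have h3 : ∀ p ∈ PP, ‖∑ m ∈ range M, e (h * y * Kp b s p + (J + m) * (θ * (h * Kp b s p)))‖ ≤
      (if Kp b s p = 0 then (M : ℝ) else 0) + 2 / κ := by
    intro p hp
    split_ifs with hp0
    · rw [hp0]
      have : ‖∑ m ∈ range M, e (h * y * ((0 : ℤ) : ℝ) + (J + m) * (θ * (h * ((0 : ℤ) : ℝ))))‖ ≤ M := by
        refine (norm_sum_le _ _).trans ?_
        rw [sum_congr rfl fun m _ => norm_e _]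
        simp
      exact this.trans (le_add_of_nonneg_right hκ2.le)
    · rw [zero_add]
      exact geom (θ * (h * Kp b s p)) κ hκ (hfar p (fun j => by
        have := (Fintype.mem_piFinset.1 hp) j
        rw [mem_Icc] at this
        omega) h hh1 hh hp0) (h * y * Kp b s p) J M
  refine (norm_sum_le _ _).trans ((sum_le_sum h3).trans ?_)
  rw [sum_add_distrib, ← sum_filter, sum_const, sum_const, nsmul_eq_mul, nsmul_eq_mul]
  apply add_le_add
  · rw [mul_comm]
    apply mul_le_mul_of_nonneg_left _ (Nat.cast_nonneg _)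
    have h7 := count_vanish b hb s hs (fun j => sg j) (fun j => abs_sg j) n
    refine (Nat.cast_le.2 h7).trans ?_
    exact_mod_cast Nat.mul_le_mul_left _ (Nat.pow_le_pow_left hn s)
  · apply mul_le_mul_of_nonneg_right _ hκ2.le
    rw [hPP, Fintype.card_piFinset]
    simp only [Nat.card_Icc, Nat.add_sub_cancel, prod_const, card_univ, Fintype.card_fin]
    push_cast
    exact pow_le_pow_left₀ (Nat.cast_nonneg _) (by exact_mod_cast hn) _

/-- the discrepancy of the multiples, one base -/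
theorem disc (δ : ℝ) (hδ : 0 < δ) (A : ℕ) : ∃ s : ℕ, 1 ≤ s ∧ ∃ N₀ : ℕ, 1 ≤ N₀ ∧ ∀ b : ℕ, 2 ≤ b →
    ∀ N : ℕ, N₀ ≤ N → ∀ (κ θ y : ℝ) (J : ℤ) (M : ℕ), 0 < κ → Far b s N κ θ →
      (N : ℝ) ^ s * (2 / κ) ≤ M →
      ((({m : ℕ | m < M ∧ ¬ ∀ n : ℕ, n ≤ N → ∀ α β : ℝ, 0 ≤ α → α < β → β ≤ 1 →
          |(((Icc 1 n).filter (fun i : ℕ => α ≤ Int.fract ((y + (J + m) * θ) * (b : ℝ) ^ i) ∧
            Int.fract ((y + (J + m) * θ) * (b : ℝ) ^ i) < β)).card : ℝ) - (β - α) * n| ≤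
              (N : ℝ) ^ (1 / 2 + δ)}).ncard : ℕ) : ℝ) * N ^ A ≤ M := by
  classical
  set s : ℕ := max 1 ⌈((A : ℝ) + 3) / δ⌉₊ with hs
  have hs1 : 1 ≤ s := le_max_left _ _
  have hsδ : (A : ℝ) + 3 ≤ s * δ := by
    have h0 : ⌈((A : ℝ) + 3) / δ⌉₊ ≤ s := le_max_right _ _
    have h1 : ((A : ℝ) + 3) / δ ≤ s := (Nat.le_ceil _).trans (Nat.cast_le.2 h0)
    rwa [div_le_iff₀ hδ] at h1
  set C : ℕ := s ^ (2 * s) * (2 * (2 * s) + 1) ^ (2 * s) + 1 with hC
  have hl2 : ∀ᶠ N : ℕ in atTop, 6 + 2 * Real.log N ≤ (N : ℝ) ^ (δ / 2) := by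
    have h1 : (fun u : ℝ => 6 + 2 * Real.log u) =o[atTop] (fun u : ℝ => u ^ (δ / 2)) := by
      apply Asymptotics.IsLittleO.add
      · exact Asymptotics.isLittleO_const_left.2 (Or.inr (by
          refine tendsto_norm_atTop_atTop.comp (tendsto_rpow_atTop (by positivity))))
      · exact (isLittleO_log_rpow_atTop (by positivity)).const_mul_left 2
    have h2 := (h1.comp_tendsto tendsto_natCast_atTop_atTop).bound (c := 1) one_pos
    filter_upwards [h2, eventually_ge_atTop 1] with N hN hN1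
    simp only [Function.comp, Real.norm_eq_abs, one_mul] at hN
    have hN1' : (1 : ℝ) ≤ N := by exact_mod_cast hN1
    rw [abs_of_nonneg (a := (N : ℝ) ^ (δ / 2)) (by positivity)] at hN
    exact (le_abs_self _).trans hN
  obtain ⟨N2, hN2⟩ := eventually_atTop.1 hl2
  refine ⟨s, hs1, max N2 (max 1 (2 * C)), (le_max_left _ _).trans (le_max_right _ _),
    fun b hb N hN κ θ y J M hκ hfar hM => ?_⟩
  have hNc := hN2 N ((le_max_left _ _).trans hN)
  have hNd : 1 ≤ N := ((le_max_left _ _).trans (le_max_right _ _)).trans hN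
  have hNe : 2 * C ≤ N := ((le_max_right _ _).trans (le_max_right _ _)).trans hN
  have hNR : (1 : ℝ) ≤ N := by exact_mod_cast hNd
  have hN0 : (0 : ℝ) < N := by linarith
  set T : ℝ := (N : ℝ) ^ (1 / 2 + δ / 2) with hTd
  have hT0 : 0 < T := Real.rpow_pos_of_pos hN0 _
  have hTs : T ^ (2 * s) = (N : ℝ) ^ s * (N : ℝ) ^ (s * δ) := by
    rw [hTd, ← Real.rpow_natCast, ← Real.rpow_mul hN0.le, ← Real.rpow_natCast (N : ℝ) s,
      ← Real.rpow_add hN0]
    congr 1
    push_cast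
    ring
  have hTs2 : (N : ℝ) ^ s * (N : ℝ) ^ (A + 3) ≤ T ^ (2 * s) := by
    rw [hTs]
    apply mul_le_mul_of_nonneg_left _ (by positivity)
    rw [← Real.rpow_natCast]
    apply Real.rpow_le_rpow_of_exponent_le hNR
    push_cast
    exact hsδ
  have hM0 : (0 : ℝ) < M := lt_of_lt_of_le (by positivity) hM
  -- the exceptional sets
  set S : ℕ → ℕ → ℕ → ℂ := fun h n m =>
    ∑ i ∈ Icc 1 n, e (h * (y + (J + m) * θ) * (b : ℝ) ^ i) with hS
  set E : ℕ → ℕ → Finset ℕ := fun h n => (range M).filter (fun m => T < ‖S h n m‖) with hE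
  have hEc : ∀ h ∈ Icc 1 N, ∀ n ∈ range (N + 1),
      ((E h n).card : ℝ) ≤ M * C / N ^ (A + 3) := by
    intro h hh n hn
    rw [mem_Icc] at hh
    rw [mem_range] at hn
    have h1 := moment b hb s hs1 N κ θ hκ hfar y J M h n hh.1 hh.2 (by omega)
    have h2 : ((E h n).card : ℝ) * T ^ (2 * s) ≤
        ∑ m ∈ range M, ‖∑ i ∈ Icc 1 n, e (h * (y + (J + m) * θ) * (b : ℝ) ^ i)‖ ^ (2 * s) := by
      calc ((E h n).card : ℝ) * T ^ (2 * s) = ∑ m ∈ E h n, T ^ (2 * s) := by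
            rw [sum_const, nsmul_eq_mul]
        _ ≤ ∑ m ∈ E h n, ‖S h n m‖ ^ (2 * s) := by
            refine sum_le_sum fun m hm => ?_
            exact pow_le_pow_left₀ hT0.le (mem_filter.1 hm).2.le _
        _ ≤ ∑ m ∈ range M, ‖S h n m‖ ^ (2 * s) :=
            sum_le_sum_of_subset_of_nonneg (filter_subset _ _) fun m _ _ => by positivity
    have h3 : (N : ℝ) ^ (2 * s) * (2 / κ) ≤ M * N ^ s := by
      have e2 : (N : ℝ) ^ (2 * s) = N ^ s * N ^ s := by ring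
      rw [e2]
      have := mul_le_mul_of_nonneg_left hM (by positivity : (0 : ℝ) ≤ (N : ℝ) ^ s)
      linarith
    have h4 : ((E h n).card : ℝ) * ((N : ℝ) ^ s * (N : ℝ) ^ (A + 3)) ≤ M * C * N ^ s := by
      refine (mul_le_mul_of_nonneg_left hTs2 (Nat.cast_nonneg _)).trans (h2.trans (h1.trans ?_))
      rw [hC]
      push_cast
      push_cast at h3
      linarith
    rw [le_div_iff₀ (by positivity)]
    have h5 : ((E h n).card : ℝ) * (N : ℝ) ^ (A + 3) * N ^ s ≤ M * C * N ^ s := by linarith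
    exact le_of_mul_le_mul_right h5 (by positivity)
  set U : Finset ℕ := (Icc 1 N).biUnion fun h => (range (N + 1)).biUnion fun n => E h n with hU
  have hUc : (U.card : ℝ) ≤ N * ((N + 1) * (M * C / N ^ (A + 3))) := by
    have h1 : ∀ h ∈ Icc 1 N, ((((range (N + 1)).biUnion fun n => E h n).card : ℕ) : ℝ) ≤
          (N + 1) * (M * C / N ^ (A + 3)) := by
      intro h hh
      refine (Nat.cast_le.2 card_biUnion_le).trans ?_
      push_cast
      refine (sum_le_sum (hEc h hh)).trans ?_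
      rw [sum_const, card_range, nsmul_eq_mul]
      push_cast
      exact le_rfl
    refine (Nat.cast_le.2 card_biUnion_le).trans ?_
    push_cast
    refine (sum_le_sum h1).trans ?_
    rw [sum_const, Nat.card_Icc, nsmul_eq_mul, Nat.add_sub_cancel]
  have hfin : (U.card : ℝ) * N ^ A ≤ M := by
    have h1 : (N : ℝ) * ((N + 1) * (M * C / N ^ (A + 3))) * N ^ A =
        M * (C * (N + 1) / N ^ 2) := by
      field_simp
      ring
    have h2 : (C : ℝ) * (N + 1) / N ^ 2 ≤ 1 := by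
      rw [div_le_one (by positivity)]
      have h3 : 2 * (C : ℝ) ≤ N := by exact_mod_cast hNe
      have h4 : (0 : ℝ) ≤ C := by positivity
      nlinarith
    calc (U.card : ℝ) * N ^ A ≤ (N : ℝ) * ((N + 1) * (M * C / N ^ (A + 3))) * N ^ A := by
          exact mul_le_mul_of_nonneg_right hUc (by positivity)
      _ = M * (C * (N + 1) / N ^ 2) := h1
      _ ≤ M * 1 := mul_le_mul_of_nonneg_left h2 hM0.le
      _ = M := mul_one _
  refine le_trans ?_ hfin
  apply mul_le_mul_of_nonneg_right _ (by positivity)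
  rw [← Set.ncard_coe_finset U]
  refine Nat.cast_le.2 (Set.ncard_le_ncard ?_ (finite_toSet U))
  rintro m ⟨hm, hbad⟩
  rw [mem_coe]
  by_contra hmU
  apply hbad
  intro n hn α β h0 h1 h2
  have hT : ∀ h : ℕ, 1 ≤ h → h ≤ N → ‖∑ i ∈ Icc 1 n, e (h * ((y + (J + m) * θ) * (b : ℝ) ^ i))‖ ≤ T := by
    intro h hh1 hh2
    by_contra hcon
    push Not at hcon
    apply hmU
    rw [hU, mem_biUnion]
    refine ⟨h, mem_Icc.2 ⟨hh1, hh2⟩, ?_⟩
    rw [mem_biUnion]
    refine ⟨n, mem_range.2 (by omega), ?_⟩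
    rw [hE]
    simp only [mem_filter, mem_range]
    refine ⟨hm, ?_⟩
    rw [hS]
    simp only
    have : ∀ i : ℕ, (h : ℝ) * ((y + (J + m) * θ) * (b : ℝ) ^ i) =
        h * (y + (J + m) * θ) * (b : ℝ) ^ i := fun i => by ring
    simp_rw [this] at hcon
    exact hcon
  have h5 := dev_bound (fun i => (y + (J + m) * θ) * (b : ℝ) ^ i) n N hn hNd T hT α β h0 h1 h2
  refine h5.trans ?_
  have h6 : Real.sqrt N ≤ T := by
    rw [Real.sqrt_eq_rpow, hTd]
    exact Real.rpow_le_rpow_of_exponent_le hNR (by linarith)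
  have h7 : (N : ℝ) ^ (1 / 2 + δ) = T * (N : ℝ) ^ (δ / 2) := by
    rw [hTd, ← Real.rpow_add hN0]
    congr 1
    ring
  rw [h7]
  have h8 := mul_le_mul_of_nonneg_left hNc hT0.le
  nlinarith

end Pool.Agent.K9h10.RM
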